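import Mathlib
import Pool.Agent.K3h63.LT.Rat

/-!
# Laurent polynomials with coefficients of generic logarithmic size are hyperbolic

The rational maps `∑ a k z ^ k`, `k` in a finite set of integers with extreme exponents `-m ≤ -2` and
`n ≥ 2`. Their tropicalisation, a convex piecewise linear map of the line, has chaotic dynamics for
an open set of directions; nevertheless in almost every direction of a cone of directions (of all
directions, if the exponents `±1` and one of `±2` do not occur) all the maps far enough in this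
direction are hyperbolic, whatever the arguments of the coefficients are.
-/

set_option autoImplicit false

open Polynomial Filter Topology MeasureTheory

namespace Pool.Agent.Results.MP_8f2e1c_an.LaurentLogarithmicScales

/-- `P / Q` is in lowest terms and every critical point (point of the Riemann sphere where the map
`f` induced by `P / Q` is not locally injective) is attracted by an attracting cycle of `f`: word
for word the condition of the frozen statement `S05373`. -/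
def Hyperbolic (P Q : Polynomial ℂ) : Prop :=
  IsCoprime P Q ∧
    ∃ f : OnePoint ℂ → OnePoint ℂ, Continuous f ∧
      (∀ z : ℂ, Q.eval z ≠ 0 →
        f (OnePoint.some z) = OnePoint.some (P.eval z / Q.eval z)) ∧
      ∀ c : OnePoint ℂ, (¬ ∃ U ∈ nhds c, Set.InjOn f U) →
        ∃ z : OnePoint ℂ, ∃ n : ℕ, 0 < n ∧ f^[n] z = z ∧
          (∃ U ∈ nhds z, ∀ w ∈ U,
            Filter.Tendsto (fun k : ℕ => f^[n * k] w) Filter.atTop (nhds z)) ∧
          Filter.Tendsto (fun k : ℕ => f^[n * k] c) Filter.atTop (nhds z)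

/-- The sphere map `f` of `P / Q` has an attracting point `z` with `f^N (z) = z` such that the orbit
of every critical point converges to `∞` or to the cycle of `z`. -/
def OneCycle (N : ℕ) (P Q : Polynomial ℂ) : Prop :=
  ∃ f : OnePoint ℂ → OnePoint ℂ, Continuous f ∧
    (∀ z : ℂ, Q.eval z ≠ 0 →
      f (OnePoint.some z) = OnePoint.some (P.eval z / Q.eval z)) ∧
    ∃ z : OnePoint ℂ, f^[N] z = z ∧
      (∃ U ∈ nhds z, ∀ w ∈ U,
        Filter.Tendsto (fun k : ℕ => f^[N * k] w) Filter.atTop (nhds z)) ∧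
      ∀ c : OnePoint ℂ, (¬ ∃ U ∈ nhds c, Set.InjOn f U) →
        Filter.Tendsto (fun k : ℕ => f^[k] c) Filter.atTop (nhds OnePoint.infty) ∨
        ∃ j : ℕ, Filter.Tendsto (fun k : ℕ => f^[N * k + j] c) Filter.atTop (nhds z)

/-- `z ^ m` times the Laurent polynomial `∑ a k z ^ k`, `k ∈ I`, where `-m ≤ k` for all `k ∈ I`. -/
noncomputable def numer {I : Finset ℤ} (m : ℕ) (a : I → ℂ) : ℂ[X] :=
  ∑ i : I, C (a i) * X ^ ((i : ℤ) + (m : ℤ)).toNat

/-- The `i`-th term is dominant at the logarithmic scale `x`. -/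
def Dominant {I : Finset ℤ} (α : I → ℝ) (i : I) (x : ℝ) : Prop :=
  ∀ k : I, α k + ((k : ℤ) : ℝ) * x ≤ α i + ((i : ℤ) : ℝ) * x

/-- The exponents `1` and `-1` are never dominant, and not both `2` and `-2` are dominant at some
scales. -/
def Tame {I : Finset ℤ} (α : I → ℝ) : Prop :=
  (∀ (i : I) (x : ℝ), Dominant α i x → (i : ℤ) ≠ 1 ∧ (i : ℤ) ≠ -1) ∧
  ¬ ∃ (i j : I) (x y : ℝ), (i : ℤ) = 2 ∧ (j : ℤ) = -2 ∧ Dominant α i x ∧ Dominant α j y

section

variable {I : Finset ℤ}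

/-- the exponents -/
def ex (I : Finset ℤ) : I → ℤ := fun i => (i : ℤ)

theorem dominant_iff [Nonempty I] (α : I → ℝ) (i : I) (x : ℝ) :
    Dominant α i x ↔
      Pool.Agent.K3h63.LT.F (ex I) α x = α i + (((ex I) i : ℤ) : ℝ) * x := by
  constructor
  · intro h
    exact le_antisymm (Pool.Agent.K3h63.LT.F_le h) (Pool.Agent.K3h63.LT.le_F α x i)
  · intro h k
    have := Pool.Agent.K3h63.LT.le_F (e := ex I) α x k
    rw [h] at this
    exact this

theorem tame_iff [Nonempty I] (α : I → ℝ) : Tame α ↔ Pool.Agent.K3h63.LT.Tame (ex I) α := by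
  unfold Tame Pool.Agent.K3h63.LT.Tame
  constructor
  · rintro ⟨h1, h2⟩
    refine ⟨fun i hi x => ?_, fun i j hi hj h => ?_⟩
    · refine lt_of_le_of_ne (Pool.Agent.K3h63.LT.le_F (e := ex I) α x i) fun h => ?_
      have h3 := h1 i x ((dominant_iff α i x).2 h.symm)
      rcases hi with hi | hi
      · exact h3.1 hi
      · exact h3.2 hi
    · obtain ⟨⟨x, hx⟩, ⟨y, hy⟩⟩ := h
      exact h2 ⟨i, j, x, y, hi, hj, (dominant_iff α i x).2 hx, (dominant_iff α j y).2 hy⟩
  · rintro ⟨h1, h2⟩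
    refine ⟨fun i x h => ⟨fun hi => ?_, fun hi => ?_⟩, ?_⟩
    · exact (h1 i (Or.inl hi) x).ne' ((dominant_iff α i x).1 h)
    · exact (h1 i (Or.inr hi) x).ne' ((dominant_iff α i x).1 h)
    · rintro ⟨i, j, x, y, hi, hj, hx, hy⟩
      exact h2 i j hi hj ⟨⟨x, (dominant_iff α i x).1 hx⟩, ⟨y, (dominant_iff α j y).1 hy⟩⟩

theorem ex_injective : Function.Injective (ex I) := Subtype.val_injective

theorem good_imp {m n : ℕ} (hm : 2 ≤ m) (hn : 2 ≤ n) (hmI : -(m : ℤ) ∈ I) (hnI : (n : ℤ) ∈ I)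
    (hI : ∀ k ∈ I, -(m : ℤ) ≤ k ∧ k ≤ n) {a : I → ℂ} (ha : ∀ i, a i ≠ 0) {N : ℕ}
    (hg : Pool.Agent.K3h63.LT.Good (ex I) N a) :
    max (numer m a).natDegree (X ^ m : ℂ[X]).natDegree = m + n ∧
      Hyperbolic (numer m a) (X ^ m) ∧ OneCycle (N + 1) (numer m a) (X ^ m) := by
  have hnonempty : Nonempty I := ⟨⟨_, hmI⟩⟩
  have hm' : ∀ i : I, -(m : ℤ) ≤ ex I i := fun i => (hI i i.2).1
  have hmax : ∀ k : I, k ≠ ⟨(n : ℤ), hnI⟩ → ex I k < ex I ⟨(n : ℤ), hnI⟩ := by
    intro k hk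
    refine lt_of_le_of_ne (hI k k.2).2 fun h => hk ?_
    exact Subtype.ext h
  have hnum : numer m a = Pool.Agent.K3h63.LT.num (ex I) m a := rfl
  obtain ⟨f, hfc, hf, hf2, hinf, h0⟩ := Pool.Agent.K3h63.LT.exists_map (e := ex I) (m := m)
    (d := ⟨(n : ℤ), hnI⟩) (l := ⟨-(m : ℤ), hmI⟩) (a := a) (by omega) hm' ex_injective
    (by show (1 : ℤ) ≤ n; omega) hmax rfl (ha _) (ha _)
  obtain ⟨hh, z, hz, hatt, hall⟩ := Pool.Agent.K3h63.LT.hyp_of_good ex_injective hfc hf2 hinf h0 hg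
  refine ⟨?_, ⟨?_, f, hfc, ?_, hh⟩, ⟨f, hfc, ?_, z, hz, hatt, hall⟩⟩
  · rw [hnum, Pool.Agent.K3h63.LT.num_natDegree (e := ex I) hm' ex_injective hmax (ha _),
      natDegree_X_pow]
    show max ((n : ℤ) + (m : ℤ)).toNat m = m + n
    omega
  · rw [hnum]
    exact Pool.Agent.K3h63.LT.coprime (l := ⟨-(m : ℤ), hmI⟩) hm' ex_injective rfl (ha _)
  · exact hf
  · exact hf

theorem generic {m n : ℕ} (hm : 2 ≤ m) (hn : 2 ≤ n) (hmI : -(m : ℤ) ∈ I) (hnI : (n : ℤ) ∈ I)
    (hI : ∀ k ∈ I, -(m : ℤ) ≤ k ∧ k ≤ n) :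
    ∀ᵐ α : I → ℝ, Tame α → ∃ N : ℕ, ∃ δ : ℝ, 0 < δ ∧ ∃ t₀ : ℝ, ∀ t : ℝ, t₀ ≤ t → ∀ a : I → ℂ,
      (∀ i, a i ≠ 0) → (∀ i, |Real.log ‖a i‖ - t * α i| ≤ δ * t) →
        Pool.Agent.K3h63.LT.Good (ex I) N a := by
  have hnonempty : Nonempty I := ⟨⟨_, hmI⟩⟩
  have hmax : ∀ k : I, k ≠ ⟨(n : ℤ), hnI⟩ → ex I k < ex I ⟨(n : ℤ), hnI⟩ := by
    intro k hk
    refine lt_of_le_of_ne (hI k k.2).2 fun h => hk ?_
    exact Subtype.ext h
  have hd : 2 ≤ ex I ⟨(n : ℤ), hnI⟩ := by show (2 : ℤ) ≤ n; omega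
  have hl : ex I ⟨-(m : ℤ), hmI⟩ ≤ -2 := by show -(m : ℤ) ≤ -2; omega
  filter_upwards [Pool.Agent.K3h63.LT.ae_gen (e := ex I) ex_injective hd hl] with α hα hT
  exact Pool.Agent.K3h63.LT.dir ex_injective hd hmax hα ((tame_iff α).1 hT)

theorem tame_pos {m n : ℕ} (hm : 2 ≤ m) (hn : 2 ≤ n) (hmI : -(m : ℤ) ∈ I) (hnI : (n : ℤ) ∈ I)
    (hI : ∀ k ∈ I, -(m : ℤ) ≤ k ∧ k ≤ n) (h3 : 3 ≤ m ∨ 3 ≤ n) :
    0 < volume {α : I → ℝ | Tame α} := by
  classical
  set d : I := ⟨(n : ℤ), hnI⟩ with hd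
  set l : I := ⟨-(m : ℤ), hmI⟩ with hl
  set U : Set (I → ℝ) := Set.pi Set.univ
    (fun k : I => if k = d ∨ k = l then Set.Ioo (-1 : ℝ) 1 else Set.Iio (-1 : ℝ)) with hU
  have hUo : IsOpen U := by
    apply isOpen_set_pi Set.finite_univ
    intro k _
    split_ifs
    · exact isOpen_Ioo
    · exact isOpen_Iio
  have hUne : U.Nonempty := by
    rw [hU, Set.univ_pi_nonempty_iff]
    intro k
    split_ifs
    · exact ⟨0, by norm_num, by norm_num⟩
    · exact ⟨-2, by norm_num⟩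
  refine lt_of_lt_of_le (hUo.measure_pos volume hUne) (measure_mono ?_)
  intro α hα
  have hα' : ∀ k : I, α k ∈ (if k = d ∨ k = l then Set.Ioo (-1 : ℝ) 1 else Set.Iio (-1 : ℝ)) :=
    fun k => hα k (Set.mem_univ k)
  have hαd : -1 < α d ∧ α d < 1 := by have := hα' d; simpa using this
  have hαl : -1 < α l ∧ α l < 1 := by have := hα' l; simpa using this
  have hm0 : (2 : ℝ) ≤ m := by exact_mod_cast hm
  have hn0 : (2 : ℝ) ≤ n := by exact_mod_cast hn
  -- only the extreme exponents are dominant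
  have key : ∀ (i : I) (x : ℝ), Dominant α i x → i = d ∨ i = l := by
    intro i x hdom
    by_contra hi
    have h1 := hα' i
    rw [if_neg hi] at h1
    have h1' : α i < -1 := h1
    have h4 := hdom d
    have h5 := hdom l
    have e1 : ((d : ℤ) : ℝ) = n := by rw [hd]; simp
    have e2 : ((l : ℤ) : ℝ) = -m := by rw [hl]; simp
    rw [e1] at h4
    rw [e2] at h5
    have h6 : -(m : ℝ) ≤ ((i : ℤ) : ℝ) := by exact_mod_cast (hI i i.2).1
    have h7 : ((i : ℤ) : ℝ) ≤ n := by exact_mod_cast (hI i i.2).2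
    set q : ℝ := ((i : ℤ) : ℝ) with hq
    -- `(q + m) * (first) + (n - q) * (second)`
    have h8 : (q + m) * (α d + n * x) ≤ (q + m) * (α i + q * x) :=
      mul_le_mul_of_nonneg_left h4 (by linarith)
    have h9 : (n - q) * (α l + -m * x) ≤ (n - q) * (α i + q * x) :=
      mul_le_mul_of_nonneg_left h5 (by linarith)
    have h10 : (q + m) * α d + (n - q) * α l ≤ (m + n) * α i := by nlinarith
    have h11 : -(q + m) ≤ (q + m) * α d := by nlinarith
    have h12 : -(n - q) ≤ (n - q) * α l := by nlinarith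
    nlinarith
  refine ⟨fun i x hdom => ?_, ?_⟩
  · rcases key i x hdom with h | h
    · rw [h, hd]
      constructor
      · show (n : ℤ) ≠ 1; omega
      · show (n : ℤ) ≠ -1; omega
    · rw [h, hl]
      constructor
      · show -(m : ℤ) ≠ 1; omega
      · show -(m : ℤ) ≠ -1; omega
  · rintro ⟨i, j, x, y, hi, hj, hx, hy⟩
    have hid : i = d := by
      rcases key i x hx with h | h
      · exact h
      · exfalso
        rw [h, hl] at hi
        have : -(m : ℤ) = 2 := hi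
        omega
    have hjl : j = l := by
      rcases key j y hy with h | h
      · exfalso
        rw [h, hd] at hj
        have : (n : ℤ) = -2 := hj
        omega
      · exact h
    rw [hid, hd] at hi
    rw [hjl, hl] at hj
    have h1 : (n : ℤ) = 2 := hi
    have h2 : -(m : ℤ) = -2 := hj
    omega

end

/-- Let `I` be a finite set of integers with smallest element `-m ≤ -2` and largest element `n ≥ 2`.
Consider the rational maps `f (z) = ∑ a k z ^ k`, `k ∈ I`, all `a k ≠ 0`; they have degree `m + n`.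

(1) For Lebesgue almost every tame direction `α ∈ ℝ ^ I` there are `N ≥ 1`, `δ > 0` and `t₀` such
that for all `t ≥ t₀` EVERY such map whose coefficients satisfy `|log |a k| - t α k| ≤ δ t` for all
`k ∈ I` is hyperbolic; moreover the orbit of every critical point converges to `∞` or to one
single attracting cycle, of a point with `f^N (z) = z`.

(2) Let `μ` be a finite measure on `ℝ ^ I` which is absolutely continuous with respect to Lebesgue
measure. Then the `μ`-measure of the set of the tame `α` for which there is a non-hyperbolic map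
`∑ a k z ^ k` with `log |a k| = t α k` for all `k ∈ I`, tends to zero as `t → ∞`.

(3) If `1`, `-1` and one of `2`, `-2` are not in `I`, then all directions are tame.

(4) If `m ≥ 3` or `n ≥ 3`, then the set of the tame directions has positive Lebesgue measure. -/
theorem result (I : Finset ℤ) (m n : ℕ) (hm : 2 ≤ m) (hn : 2 ≤ n) (hmI : -(m : ℤ) ∈ I)
    (hnI : (n : ℤ) ∈ I) (hI : ∀ k ∈ I, -(m : ℤ) ≤ k ∧ k ≤ n) :
    (∀ᵐ α : I → ℝ, Tame α → ∃ N : ℕ, 0 < N ∧ ∃ δ : ℝ, 0 < δ ∧ ∃ t₀ : ℝ, ∀ t : ℝ, t₀ ≤ t →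
      ∀ a : I → ℂ, (∀ i, a i ≠ 0) → (∀ i, |Real.log ‖a i‖ - t * α i| ≤ δ * t) →
        max (numer m a).natDegree (X ^ m : ℂ[X]).natDegree = m + n ∧
        Hyperbolic (numer m a) (X ^ m) ∧ OneCycle N (numer m a) (X ^ m)) ∧
    (∀ μ : Measure (I → ℝ), IsFiniteMeasure μ → μ ≪ volume →
      Tendsto (fun t : ℝ => μ {α : I → ℝ | Tame α ∧ ∃ a : I → ℂ,
        (∀ i, a i ≠ 0 ∧ Real.log ‖a i‖ = t * α i) ∧ ¬ Hyperbolic (numer m a) (X ^ m)})
        atTop (𝓝 0)) ∧
    ((1 : ℤ) ∉ I → (-1 : ℤ) ∉ I → ((2 : ℤ) ∉ I ∨ (-2 : ℤ) ∉ I) → ∀ α : I → ℝ, Tame α) ∧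
    (3 ≤ m ∨ 3 ≤ n → 0 < volume {α : I → ℝ | Tame α}) := by
  have hnonempty : Nonempty I := ⟨⟨_, hmI⟩⟩
  have hgen := generic hm hn hmI hnI hI
  refine ⟨?_, ?_, ?_, tame_pos hm hn hmI hnI hI⟩
  · filter_upwards [hgen] with α hα hT
    obtain ⟨N, δ, hδ, t₀, h⟩ := hα hT
    exact ⟨N + 1, Nat.succ_pos N, δ, hδ, t₀, fun t ht a h0 h1 =>
      good_imp hm hn hmI hnI hI h0 (h t ht a h0 h1)⟩
  · intro μ hfin hμ
    set B : ℝ → Set (I → ℝ) := fun t => {α : I → ℝ | ∃ a : I → ℂ,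
        (∀ i, a i ≠ 0 ∧ Real.log ‖a i‖ = t * α i) ∧ ¬ Hyperbolic (numer m a) (X ^ m)} with hB
    set T : Set (I → ℝ) := {α : I → ℝ | Tame α} with hTdef
    have hTm : MeasurableSet T := by
      have : T = {α : I → ℝ | Pool.Agent.K3h63.LT.Tame (ex I) α} := by
        ext α
        exact tame_iff α
      rw [this]
      exact Pool.Agent.K3h63.LT.measurable_tame
    set G : ℕ → Set (I → ℝ) := fun n => interior {α | ∀ t : ℝ, (n : ℝ) ≤ t → α ∉ B t} with hG
    have hGm : Monotone G := by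
      intro m n hmn
      apply interior_mono
      intro α hα t ht
      exact hα t (le_trans (by exact_mod_cast hmn) ht)
    have hcov : ∀ᵐ α : I → ℝ, α ∈ T → ∃ n, α ∈ G n := by
      filter_upwards [hgen] with α hα hT
      obtain ⟨N, δ, hδ, t₀, h⟩ := hα hT
      obtain ⟨n', hn'⟩ := exists_nat_ge (max t₀ 1)
      refine ⟨n', ?_⟩
      rw [hG, mem_interior_iff_mem_nhds]
      filter_upwards [Metric.closedBall_mem_nhds α hδ] with β hβ t ht hcon
      obtain ⟨a, ha, hnot⟩ := hcon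
      have ht1 : t₀ ≤ t := (le_max_left _ _).trans (hn'.trans ht)
      have ht0 : 0 < t := lt_of_lt_of_le one_pos ((le_max_right _ _).trans (hn'.trans ht))
      apply hnot
      refine (good_imp hm hn hmI hnI hI (fun i => (ha i).1)
        (h t ht1 a (fun i => (ha i).1) fun i => ?_)).2.1
      rw [(ha i).2, ← mul_sub, abs_mul, abs_of_pos ht0, mul_comm]
      rw [Metric.mem_closedBall, dist_pi_le_iff hδ.le] at hβ
      exact mul_le_mul_of_nonneg_right (hβ i) ht0.le
    have hzero : μ (⋂ n, T ∩ (G n)ᶜ) = 0 := by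
      apply hμ
      rw [ae_iff] at hcov
      refine measure_mono_null ?_ hcov
      intro α hα
      rw [Set.mem_iInter] at hα
      rw [Set.mem_ofPred_eq]
      intro h
      obtain ⟨n', hn'⟩ := h (hα 0).1
      exact (hα n').2 hn'
    have hlim : Tendsto (fun n => μ (T ∩ (G n)ᶜ)) atTop (𝓝 0) := by
      rw [← hzero]
      apply tendsto_measure_iInter_atTop
      · intro n
        exact (hTm.inter isOpen_interior.measurableSet.compl).nullMeasurableSet
      · intro m n hmn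
        exact Set.inter_subset_inter_right _ (Set.compl_subset_compl.2 (hGm hmn))
      · exact ⟨0, measure_ne_top _ _⟩
    rw [ENNReal.tendsto_nhds_zero] at hlim ⊢
    intro ε hε
    obtain ⟨n', hn'⟩ := (hlim ε hε).exists
    filter_upwards [eventually_ge_atTop (n' : ℝ)] with t ht
    refine (measure_mono ?_).trans hn'
    intro α hα
    refine ⟨hα.1, fun hαG => ?_⟩
    exact (interior_subset hαG) t ht hα.2
  · intro h1 h2 h3 α
    refine ⟨fun i x _ => ⟨fun h => h1 (h ▸ i.2), fun h => h2 (h ▸ i.2)⟩, ?_⟩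
    rintro ⟨i, j, x, y, hi, hj, -, -⟩
    rcases h3 with h3 | h3
    · exact h3 (hi ▸ i.2)
    · exact h3 (hj ▸ j.2)

end Pool.Agent.Results.MP_8f2e1c_an.LaurentLogarithmicScales
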