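import Mathlib
import Pool.Agent.K3h81.LD.Main

/-!
# Rational maps far out in a tropically hyperbolic direction are hyperbolic

The coefficients of the numerator and of the denominator have the moduli `exp (t α i)` and
`exp (t β j)` up to factors `exp (δ t)`, with arbitrary arguments. The dynamics of the moduli is
governed by the tropical rational function `F x = max (α i + i x) - max (β j + j x)`, a continuous
piecewise linear map of the line with integer slopes. If its critical orbits avoid the corners and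
end in flat cycles or escape, then all the rational maps far enough in the direction `(α, β)` are
hyperbolic. This is the case for almost all the directions for which `F` is nondecreasing on its
range.
-/

set_option autoImplicit false

open Polynomial Filter Topology MeasureTheory

namespace Pool.Agent.Results.MP_8f2e1c_an.LogarithmicDirections

/-- `f` is the self-map `P / Q` of the Riemann sphere. -/
def IsMap (P Q : ℂ[X]) (f : OnePoint ℂ → OnePoint ℂ) : Prop :=
  Continuous f ∧ ∀ z : ℂ, Q.eval z ≠ 0 → f (OnePoint.some z) = OnePoint.some (P.eval z / Q.eval z)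

/-- The critical points of `f`: the points where it is not locally injective. -/
def Critical (f : OnePoint ℂ → OnePoint ℂ) (c : OnePoint ℂ) : Prop :=
  ¬ ∃ U ∈ 𝓝 c, Set.InjOn f U

/-- `P / Q` is a rational map of degree `d` in lowest terms, all of whose critical points are
attracted by periodic sinks (the formula of the frozen statement `S05373`). -/
def Hyperbolic (d : ℕ) (P Q : ℂ[X]) : Prop :=
  IsCoprime P Q ∧ max P.natDegree Q.natDegree = d ∧ ∃ f, IsMap P Q f ∧
    ∀ c : OnePoint ℂ, Critical f c → ∃ z : OnePoint ℂ, ∃ n : ℕ, 0 < n ∧ f^[n] z = z ∧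
      (∃ U ∈ 𝓝 z, ∀ w ∈ U, Tendsto (fun k : ℕ => f^[n * k] w) atTop (𝓝 z)) ∧
      Tendsto (fun k : ℕ => f^[n * k] c) atTop (𝓝 z)

/-- The orbit of every critical point converges to an attracting FIXED point. -/
def AllToFixed (P Q : ℂ[X]) : Prop :=
  ∃ f, IsMap P Q f ∧ ∀ c : OnePoint ℂ, Critical f c → ∃ z : OnePoint ℂ, f z = z ∧
    (∃ U ∈ 𝓝 z, ∀ w ∈ U, Tendsto (fun k : ℕ => f^[k] w) atTop (𝓝 z)) ∧
    Tendsto (fun k : ℕ => f^[k] c) atTop (𝓝 z)

/-- The polynomial with exponents in `I` and the coefficients `a`. -/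
noncomputable def poly {I : Finset ℕ} (a : I → ℂ) : ℂ[X] := ∑ i : I, C (a i) * X ^ (i : ℕ)

/-- The sets of the exponents of the numerator and of the denominator: they are contained in
`{0, …, d}`, the first contains `d` and the second contains `0`. -/
def Supports (d : ℕ) (I J : Finset ℕ) : Prop :=
  2 ≤ d ∧ d ∈ I ∧ (∀ i ∈ I, i ≤ d) ∧ 0 ∈ J ∧ ∀ j ∈ J, j ≤ d

/-- The tropical rational function `x ↦ max (α i + i x) - max (β j + j x)` of the direction
`p = (α, β)`. -/
noncomputable def trop {I J : Finset ℕ} (p : (I → ℝ) × (J → ℝ)) (x : ℝ) : ℝ :=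
  (⨆ i : I, (p.1 i + (i : ℕ) * x)) - ⨆ j : J, (p.2 j + (j : ℕ) * x)

/-- The indices for which the maximum of the `α i + i x` is attained. -/
def top {I : Finset ℕ} (α : I → ℝ) (x : ℝ) : Set I :=
  {i | ∀ k : I, α k + (k : ℕ) * x ≤ α i + (i : ℕ) * x}

/-- A corner of the numerator or of the denominator: one of the maxima is attained twice. -/
def Corner {I J : Finset ℕ} (p : (I → ℝ) × (J → ℝ)) (x : ℝ) : Prop :=
  1 < (top p.1 x).ncard ∨ 1 < (top p.2 x).ncard

/-- `x` is in an open interval on which the tropical function is constant: it is not a corner and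
the same exponent is dominant in the numerator and in the denominator. -/
def Flat {I J : Finset ℕ} (p : (I → ℝ) × (J → ℝ)) (x : ℝ) : Prop :=
  ¬ Corner p x ∧ ∃ i ∈ top p.1 x, ∃ j ∈ top p.2 x, (i : ℕ) = (j : ℕ)

/-- The orbit of `y` under the tropical function avoids the corners, and it ends in a cycle which
contains a flat point or it tends to `∞` or to `-∞`. -/
def Captured {I J : Finset ℕ} (p : (I → ℝ) × (J → ℝ)) (y : ℝ) : Prop :=
  (∀ m : ℕ, ¬ Corner p ((trop p)^[m] y)) ∧
    ((∃ m n : ℕ, 0 < n ∧ (trop p)^[m + n] y = (trop p)^[m] y ∧ Flat p ((trop p)^[m] y)) ∨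
      Tendsto (fun m : ℕ => (trop p)^[m] y) atTop atTop ∨
      Tendsto (fun m : ℕ => (trop p)^[m] y) atTop atBot)

/-- A tropically hyperbolic direction: the corners are simple (nowhere are three exponents of the
numerator or of the denominator dominant, or two of both), and the orbits of the values at the
corners are captured. -/
def TropicallyHyperbolic {I J : Finset ℕ} (p : (I → ℝ) × (J → ℝ)) : Prop :=
  (∀ x : ℝ, (top p.1 x).ncard + (top p.2 x).ncard ≤ 3) ∧
    ∀ x : ℝ, Corner p x → Captured p (trop p x)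

/-- The tropical rational function is nondecreasing on its range. -/
def Mono {I J : Finset ℕ} (p : (I → ℝ) × (J → ℝ)) : Prop :=
  MonotoneOn (trop p) (Set.range (trop p))

/-- The coefficients of `a` and `b` have the logarithmic sizes `t * α i` and `t * β j` up to an
error of at most `ε`. -/
def Close {I J : Finset ℕ} (ε t : ℝ) (p : (I → ℝ) × (J → ℝ)) (a : I → ℂ) (b : J → ℂ) : Prop :=
  (∀ i, a i ≠ 0 ∧ |Real.log ‖a i‖ - t * p.1 i| ≤ ε) ∧
    ∀ j, b j ≠ 0 ∧ |Real.log ‖b j‖ - t * p.2 j| ≤ ε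

theorem trop_eq {I J : Finset ℕ} [Nonempty I] [Nonempty J] (p : (I → ℝ) × (J → ℝ)) :
    trop p = Pool.Agent.K3h81.LD.G (fun i : I => (i : ℕ)) (fun j : J => (j : ℕ)) p := by
  funext x
  unfold trop Pool.Agent.K3h81.LD.G Pool.Agent.TH639.LS.F
  rw [Finset.sup'_univ_eq_ciSup, Finset.sup'_univ_eq_ciSup]

theorem mono_eq {I J : Finset ℕ} [Nonempty I] [Nonempty J] (p : (I → ℝ) × (J → ℝ)) :
    Mono p ↔ Pool.Agent.K3h81.LD.Mono (fun i : I => (i : ℕ)) (fun j : J => (j : ℕ)) p := by
  unfold Mono Pool.Agent.K3h81.LD.Mono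
  rw [trop_eq]

theorem top_nonempty {I : Finset ℕ} [Nonempty I] (α : I → ℝ) (x : ℝ) : (top α x).Nonempty := by
  obtain ⟨i, hi⟩ := Finite.exists_max (fun i : I => α i + ((i : ℕ) : ℝ) * x)
  exact ⟨i, hi⟩

theorem top_pos {I : Finset ℕ} [Nonempty I] (α : I → ℝ) (x : ℝ) : 0 < (top α x).ncard :=
  (Set.ncard_pos (Set.toFinite _)).2 (top_nonempty α x)

theorem dm_iff {I : Finset ℕ} (α : I → ℝ) (x : ℝ) (i : I) :
    Pool.Agent.K3h81.LD.Dm (fun i : I => (i : ℕ)) α x i ↔ top α x = {i} := by
  constructor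
  · intro h
    ext k
    rw [Set.mem_singleton_iff]
    constructor
    · intro hk
      by_contra hne
      have h1 := h k hne
      have h2 := hk i
      linarith
    · rintro rfl j
      by_cases hj : j = k
      · rw [hj]
      · exact (h j hj).le
  · intro h k hk
    have hi : i ∈ top α x := by rw [h]; rfl
    have hk' : k ∉ top α x := by rw [h]; exact hk
    have : ∃ j : I, α k + ((k : ℕ) : ℝ) * x < α j + ((j : ℕ) : ℝ) * x := by
      by_contra hcon
      push Not at hcon
      exact hk' hcon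
    obtain ⟨j, hj⟩ := this
    exact lt_of_lt_of_le hj (hi j)

theorem exists_dm_iff {I : Finset ℕ} [Nonempty I] (α : I → ℝ) (x : ℝ) :
    (∃ i, Pool.Agent.K3h81.LD.Dm (fun i : I => (i : ℕ)) α x i) ↔ ¬ 1 < (top α x).ncard := by
  simp only [dm_iff]
  rw [← Set.ncard_eq_one]
  have := top_pos α x
  omega

theorem tw_iff {I : Finset ℕ} (α : I → ℝ) (x : ℝ) :
    (∃ i₁ i₂, Pool.Agent.K3h81.LD.Tw (fun i : I => (i : ℕ)) α x i₁ i₂) ↔
      (top α x).ncard = 2 := by
  rw [Set.ncard_eq_two]
  refine exists_congr fun i₁ => exists_congr fun i₂ => ?_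
  unfold Pool.Agent.K3h81.LD.Tw
  refine and_congr_right fun h12 => ?_
  constructor
  · rintro ⟨h1, h2⟩
    ext k
    simp only [Set.mem_insert_iff, Set.mem_singleton_iff]
    constructor
    · intro hk
      by_contra hcon
      push Not at hcon
      have h3 := h2 k hcon.1 hcon.2
      have h4 := hk i₁
      linarith
    · have key : ∀ j : I, α j + ((j : ℕ) : ℝ) * x ≤ α i₁ + ((i₁ : ℕ) : ℝ) * x := by
        intro j
        by_cases hj1 : j = i₁
        · rw [hj1]
        by_cases hj2 : j = i₂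
        · rw [hj2]; exact h1.symm.le
        · exact (h2 j hj1 hj2).le
      rintro (rfl | rfl)
      · exact key
      · intro j
        exact (key j).trans h1.le
  · intro h
    have m1 : i₁ ∈ top α x := by rw [h]; simp
    have m2 : i₂ ∈ top α x := by rw [h]; simp
    refine ⟨le_antisymm (m2 i₁) (m1 i₂), fun k hk1 hk2 => ?_⟩
    have hk' : k ∉ top α x := by
      rw [h]
      simp only [Set.mem_insert_iff, Set.mem_singleton_iff, not_or]
      exact ⟨hk1, hk2⟩
    have : ∃ j : I, α k + ((k : ℕ) : ℝ) * x < α j + ((j : ℕ) : ℝ) * x := by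
      by_contra hcon
      push Not at hcon
      exact hk' hcon
    obtain ⟨j, hj⟩ := this
    exact lt_of_lt_of_le hj (m1 j)

theorem corner_iff {I J : Finset ℕ} [Nonempty I] [Nonempty J] (p : (I → ℝ) × (J → ℝ)) (x : ℝ) :
    Corner p x ↔ ¬ Pool.Agent.K3h81.LD.Reg (fun i : I => (i : ℕ)) (fun j : J => (j : ℕ)) p x := by
  unfold Corner Pool.Agent.K3h81.LD.Reg
  rw [exists_dm_iff, exists_dm_iff]
  tauto

theorem flat_iff {I J : Finset ℕ} [Nonempty I] [Nonempty J] (p : (I → ℝ) × (J → ℝ)) (x : ℝ) :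
    Flat p x ↔ Pool.Agent.K3h81.LD.Flt (fun i : I => (i : ℕ)) (fun j : J => (j : ℕ)) p x := by
  unfold Flat Pool.Agent.K3h81.LD.Flt
  rw [corner_iff, not_not]
  constructor
  · rintro ⟨⟨⟨i, hi⟩, ⟨j, hj⟩⟩, i', hi', j', hj', hij⟩
    refine ⟨i, j, hi, hj, ?_⟩
    rw [dm_iff] at hi hj
    rw [hi, Set.mem_singleton_iff] at hi'
    rw [hj, Set.mem_singleton_iff] at hj'
    rw [← hi', ← hj']
    exact hij
  · rintro ⟨i, j, hi, hj, hij⟩
    refine ⟨⟨⟨i, hi⟩, ⟨j, hj⟩⟩, i, ?_, j, ?_, hij⟩
    · rw [(dm_iff _ _ _).1 hi]; rfl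
    · rw [(dm_iff _ _ _).1 hj]; rfl

theorem captured_iff {I J : Finset ℕ} [Nonempty I] [Nonempty J] (p : (I → ℝ) × (J → ℝ)) (y : ℝ) :
    Captured p y ↔ Pool.Agent.K3h81.LD.Capt Set.univ (fun i : I => (i : ℕ)) (fun j : J => (j : ℕ))
      p y := by
  unfold Captured
  simp only [corner_iff, flat_iff, not_not, trop_eq]
  constructor
  · rintro ⟨h1, h2⟩
    refine ⟨h1, ?_⟩
    rcases h2 with ⟨m, n, h3, h4, h5⟩ | h2
    · exact Or.inl ⟨m, n, trivial, h3, h4, h5⟩
    · exact Or.inr h2
  · rintro ⟨h1, h2⟩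
    refine ⟨h1, ?_⟩
    rcases h2 with ⟨m, n, -, h3, h4, h5⟩ | h2
    · exact Or.inl ⟨m, n, h3, h4, h5⟩
    · exact Or.inr h2

theorem th_iff {I J : Finset ℕ} [Nonempty I] [Nonempty J] (p : (I → ℝ) × (J → ℝ)) :
    TropicallyHyperbolic p ↔ Pool.Agent.K3h81.LD.TH Set.univ (fun i : I => (i : ℕ))
      (fun j : J => (j : ℕ)) p := by
  unfold TropicallyHyperbolic
  simp only [corner_iff, captured_iff, trop_eq]
  constructor
  · rintro ⟨h1, h2⟩
    refine ⟨fun x => ?_, h2⟩
    have h3 := h1 x
    have h4 := top_pos p.1 x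
    have h5 := top_pos p.2 x
    rw [exists_dm_iff, exists_dm_iff, tw_iff, tw_iff]
    omega
  · rintro ⟨h1, h2⟩
    refine ⟨fun x => ?_, h2⟩
    have h3 := h1 x
    have h4 := top_pos p.1 x
    have h5 := top_pos p.2 x
    rw [exists_dm_iff, exists_dm_iff, tw_iff, tw_iff] at h3
    omega

theorem hyperbolic_of {S : Set ℕ} {d : ℕ} {P Q : ℂ[X]}
    (h : Pool.Agent.K3h81.LD.HypS S d P Q) : Hyperbolic d P Q := by
  obtain ⟨h1, h2, f, h3, h4, h5⟩ := h
  refine ⟨h1, h2, f, ⟨h3, h4⟩, fun c hc => ?_⟩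
  obtain ⟨n, -, hn, h6⟩ := h5 c hc
  exact h6.sinks hn

theorem fixed_of {d : ℕ} {P Q : ℂ[X]} (h : Pool.Agent.K3h81.LD.HypS {1} d P Q) :
    AllToFixed P Q := by
  obtain ⟨h1, h2, f, h3, h4, h5⟩ := h
  refine ⟨f, ⟨h3, h4⟩, fun c hc => ?_⟩
  obtain ⟨n, hn1, hn, h6⟩ := h5 c hc
  rw [Set.mem_singleton_iff] at hn1
  rw [hn1] at h6
  exact h6.sink1

theorem main {d : ℕ} {I J : Finset ℕ} (hs : Supports d I J) {S : Set ℕ} (hS : 1 ∈ S)
    {p : (I → ℝ) × (J → ℝ)} (hIn : Nonempty I) (hJn : Nonempty J)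
    (hp : Pool.Agent.K3h81.LD.TH S (fun i : I => (i : ℕ)) (fun j : J => (j : ℕ)) p) :
    ∃ δ : ℝ, 0 < δ ∧ ∃ t₀ : ℝ, ∀ t : ℝ, t₀ ≤ t →
      ∀ (a : I → ℂ) (b : J → ℂ), Close (δ * t) t p a b →
        Pool.Agent.K3h81.LD.HypS S d (poly a) (poly b) := by
  obtain ⟨hd, hI, hId, hJ, hJd⟩ := hs
  have he : Function.Injective (fun i : I => (i : ℕ)) := Subtype.val_injective
  have hg : Function.Injective (fun j : J => (j : ℕ)) := Subtype.val_injective
  obtain ⟨δ, hδ, t₀, h⟩ := Pool.Agent.K3h81.LD.dir he hg hS hp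
    (j₀ := ⟨0, hJ⟩) rfl (i₁ := ⟨d, hI⟩) (fun k => hId k k.2) (fun k => hJd k k.2)
    (show 0 < d by omega)
  exact ⟨δ, hδ, t₀, fun t ht a b hab => h t ht a b (fun i => (hab.1 i).1) (fun j => (hab.2 j).1)
    (fun i => (hab.1 i).2) (fun j => (hab.2 j).2)⟩

/-- Let `d ≥ 2`, let `I` be a set of exponents at most `d` which contains `d`, and let `J` be a set
of exponents at most `d` which contains `0` (for instance `I = J = {0, 1, …, d}`).

(1) Let the direction `p = (α, β) ∈ ℝ ^ I × ℝ ^ J` be tropically hyperbolic. Then there are `δ > 0`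
and `t₀` such that for all `t ≥ t₀` EVERY map `P / Q`, `P = ∑ a i z ^ i`, `Q = ∑ b j z ^ j`, whose
coefficients satisfy `|log |a i| - t α i| ≤ δ t` and `|log |b j| - t β j| ≤ δ t`, is a rational map
of degree `d` in lowest terms which is hyperbolic.

(2) Lebesgue almost every direction for which the tropical rational function is nondecreasing on
its range is tropically hyperbolic. For almost all these directions all the critical points of
all the maps in (1) are attracted by attracting fixed points, for suitable `δ` and `t₀`.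

(3) Let `μ` be a finite measure on `ℝ ^ I × ℝ ^ J` which is absolutely continuous with respect to
Lebesgue measure. Then the `μ`-measure of the set of the directions `p = (α, β)` as in (2) for which
there is a non-hyperbolic map `P / Q` with `log |a i| = t α i` and `log |b j| = t β j` for all `i`
and `j`, tends to zero as `t → ∞`.

(4) If `K` is a nonempty set of exponents, `I = J = K` and if `α k - β k` is nondecreasing in `k`,
then the tropical rational function is nondecreasing on the whole line. -/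
theorem result :
    (∀ (d : ℕ) (I J : Finset ℕ), Supports d I J →
      (∀ p : (I → ℝ) × (J → ℝ), TropicallyHyperbolic p → ∃ δ : ℝ, 0 < δ ∧ ∃ t₀ : ℝ, ∀ t : ℝ,
        t₀ ≤ t → ∀ (a : I → ℂ) (b : J → ℂ), Close (δ * t) t p a b →
          Hyperbolic d (poly a) (poly b)) ∧
      (∀ᵐ p : (I → ℝ) × (J → ℝ), Mono p → TropicallyHyperbolic p ∧ ∃ δ : ℝ, 0 < δ ∧ ∃ t₀ : ℝ,
        ∀ t : ℝ, t₀ ≤ t → ∀ (a : I → ℂ) (b : J → ℂ), Close (δ * t) t p a b →
          Hyperbolic d (poly a) (poly b) ∧ AllToFixed (poly a) (poly b)) ∧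
      (∀ μ : Measure ((I → ℝ) × (J → ℝ)), IsFiniteMeasure μ → μ ≪ volume →
        Tendsto (fun t : ℝ => μ {p | Mono p ∧ ∃ (a : I → ℂ) (b : J → ℂ), Close 0 t p a b ∧
          ¬ Hyperbolic d (poly a) (poly b)}) atTop (𝓝 0))) ∧
    (∀ K : Finset ℕ, K.Nonempty → ∀ p : (K → ℝ) × (K → ℝ),
      (∀ i j : K, i ≤ j → p.1 i - p.2 i ≤ p.1 j - p.2 j) → Monotone (trop p)) := by
  constructor
  · intro d I J hs
    have hIn : Nonempty I := ⟨⟨d, hs.2.1⟩⟩
    have hJn : Nonempty J := ⟨⟨0, hs.2.2.2.1⟩⟩
    have he : Function.Injective (fun i : I => (i : ℕ)) := Subtype.val_injective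
    have hg : Function.Injective (fun j : J => (j : ℕ)) := Subtype.val_injective
    have hgen : ∀ᵐ p : (I → ℝ) × (J → ℝ), Mono p → TropicallyHyperbolic p ∧ ∃ δ : ℝ, 0 < δ ∧
        ∃ t₀ : ℝ, ∀ t : ℝ, t₀ ≤ t → ∀ (a : I → ℂ) (b : J → ℂ), Close (δ * t) t p a b →
          Hyperbolic d (poly a) (poly b) ∧ AllToFixed (poly a) (poly b) := by
      filter_upwards [Pool.Agent.K3h81.LD.ae_gen he hg] with p hp hmono
      have hmono' := (mono_eq p).1 hmono
      have hth := Pool.Agent.K3h81.LD.th_of_gen he hg hmono' (hp hmono')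
      refine ⟨(th_iff p).2 (hth.mono (Set.subset_univ _)), ?_⟩
      obtain ⟨δ, hδ, t₀, h⟩ := main hs (Set.mem_singleton 1) hIn hJn hth
      exact ⟨δ, hδ, t₀, fun t ht a b hab => ⟨hyperbolic_of (h t ht a b hab),
        fixed_of (h t ht a b hab)⟩⟩
    refine ⟨fun p hp => ?_, hgen, ?_⟩
    · obtain ⟨δ, hδ, t₀, h⟩ := main hs (Set.mem_univ 1) hIn hJn ((th_iff p).1 hp)
      exact ⟨δ, hδ, t₀, fun t ht a b hab => hyperbolic_of (h t ht a b hab)⟩
    · intro μ hfin hμ
      set B : ℝ → Set ((I → ℝ) × (J → ℝ)) := fun t => {p | Mono p ∧ ∃ (a : I → ℂ) (b : J → ℂ),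
        Close 0 t p a b ∧ ¬ Hyperbolic d (poly a) (poly b)} with hB
      set G : ℕ → Set ((I → ℝ) × (J → ℝ)) := fun n => interior {p | ∀ t : ℝ, (n : ℝ) ≤ t → p ∉ B t}
        with hG
      have hGm : Monotone G := by
        intro m n hmn
        apply interior_mono
        intro α hα t ht
        exact hα t (le_trans (by exact_mod_cast hmn) ht)
      have hclosed : IsClosed {p : (I → ℝ) × (J → ℝ) | Mono p} := by
        simp only [mono_eq]
        exact Pool.Agent.K3h81.LD.isClosed_mono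
      have hcov : ∀ᵐ p : (I → ℝ) × (J → ℝ), ∃ n, p ∈ G n := by
        filter_upwards [hgen] with p hp
        by_cases hmono : Mono p
        · obtain ⟨-, δ, hδ, t₀, h⟩ := hp hmono
          obtain ⟨n, hn⟩ := exists_nat_ge (max t₀ 1)
          refine ⟨n, ?_⟩
          rw [hG, mem_interior_iff_mem_nhds]
          filter_upwards [Metric.closedBall_mem_nhds p hδ] with q hq t ht hcon
          obtain ⟨-, a, b, hab, hnot⟩ := hcon
          have ht1 : t₀ ≤ t := (le_max_left _ _).trans (hn.trans ht)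
          have ht0 : 0 < t := lt_of_lt_of_le one_pos ((le_max_right _ _).trans (hn.trans ht))
          rw [Metric.mem_closedBall, Prod.dist_eq, max_le_iff, dist_pi_le_iff hδ.le,
            dist_pi_le_iff hδ.le] at hq
          have key : ∀ x u v : ℝ, |x - t * u| ≤ 0 → dist u v ≤ δ → |x - t * v| ≤ δ * t := by
            intro x u v h1 h2
            have h3 : x = t * u := by
              have := abs_eq_zero.1 (le_antisymm h1 (abs_nonneg _))
              linarith
            rw [h3, ← mul_sub, abs_mul, abs_of_pos ht0, mul_comm]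
            rw [Real.dist_eq] at h2
            exact mul_le_mul_of_nonneg_right h2 ht0.le
          apply hnot
          refine (h t ht1 a b ⟨fun i => ⟨(hab.1 i).1, ?_⟩, fun j => ⟨(hab.2 j).1, ?_⟩⟩).1
          · exact key _ _ _ (hab.1 i).2 (hq.1 i)
          · exact key _ _ _ (hab.2 j).2 (hq.2 j)
        · refine ⟨0, ?_⟩
          rw [hG, mem_interior_iff_mem_nhds]
          filter_upwards [hclosed.isOpen_compl.mem_nhds hmono] with q hq t _ hcon
          exact hq hcon.1
      have hzero : μ (⋂ n, (G n)ᶜ) = 0 := by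
        apply hμ
        rw [ae_iff] at hcov
        convert hcov using 2
        ext α
        simp
      have hlim : Tendsto (fun n => μ (G n)ᶜ) atTop (𝓝 0) := by
        rw [← hzero]
        apply tendsto_measure_iInter_atTop
        · intro n
          exact isOpen_interior.measurableSet.compl.nullMeasurableSet
        · intro m n hmn
          exact Set.compl_subset_compl.2 (hGm hmn)
        · exact ⟨0, measure_ne_top _ _⟩
      rw [ENNReal.tendsto_nhds_zero] at hlim ⊢
      intro ε hε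
      obtain ⟨n, hn⟩ := (hlim ε hε).exists
      filter_upwards [eventually_ge_atTop (n : ℝ)] with t ht
      refine (measure_mono ?_).trans hn
      intro α hα hαG
      exact (interior_subset hαG) t ht hα
  · intro K hK p hmon x y hxy
    have hKn : Nonempty K := hK.to_subtype
    have hbA : ∀ z : ℝ, BddAbove (Set.range fun i : K => p.1 i + ((i : ℕ) : ℝ) * z) := fun z =>
      Set.Finite.bddAbove (Set.finite_range _)
    have hbB : ∀ z : ℝ, BddAbove (Set.range fun i : K => p.2 i + ((i : ℕ) : ℝ) * z) := fun z =>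
      Set.Finite.bddAbove (Set.finite_range _)
    obtain ⟨i, hi⟩ := exists_eq_ciSup_of_finite (f := fun i : K => p.1 i + ((i : ℕ) : ℝ) * x)
    obtain ⟨j, hj⟩ := exists_eq_ciSup_of_finite (f := fun i : K => p.2 i + ((i : ℕ) : ℝ) * y)
    unfold trop
    rw [← hi, ← hj]
    rcases le_total i j with hij | hij
    · have h1 := le_ciSup (hbA y) j
      have h2 := le_ciSup (hbB x) i
      have h3 := hmon i j hij
      linarith
    · have h1 := le_ciSup (hbA y) i
      have h2 := le_ciSup (hbB x) j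
      have h4 : ((j : ℕ) : ℝ) ≤ ((i : ℕ) : ℝ) := by exact_mod_cast hij
      nlinarith

end Pool.Agent.Results.MP_8f2e1c_an.LogarithmicDirections
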