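import Mathlib
import Pool.Agent.K3h20.CR.Fin7

/-!
# The families `s R(z ^ n)` and the quadratic family

For a rational map `R` and an annulus of scalings `s` in which `|s R(0)| = 1`, `|s R(∞)| = 1` never
hold and in which the critical values met by the unit circle come from simple critical points with
different moduli of critical values, the non-hyperbolic maps `s R(z ^ n)` are controlled by the
non-hyperbolic maps `z ^ 2 + c`: their area is at most `(σ A + o (1)) / n ^ 3`, where `A` is the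
area of the non-hyperbolic parameters `c` of the quadratic family and `σ` is an explicit constant
depending only on `R`, and every `s` is at distance at most `(K τ + o (1)) / n ^ 2` from a
hyperbolic one, if every `c` is at distance at most `τ` from a hyperbolic one.
-/

set_option autoImplicit false

open MeasureTheory

namespace Pool.Agent.Results.MP_8f2e1c_an.MandelbrotFamilies

/-- `P / Q` is in lowest terms and every critical point (point of the Riemann sphere where the map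
is not locally injective) has an orbit converging to an attracting periodic cycle. This is word
for word the condition of the frozen statement `S05373`. -/
def Hyperbolic (P Q : Polynomial ℂ) : Prop :=
  IsCoprime P Q ∧ ∃ f : OnePoint ℂ → OnePoint ℂ, Continuous f ∧
    (∀ z : ℂ, Q.eval z ≠ 0 →
      f (OnePoint.some z) = OnePoint.some (P.eval z / Q.eval z)) ∧
    ∀ c : OnePoint ℂ, (¬ ∃ U ∈ nhds c, Set.InjOn f U) →
      ∃ z : OnePoint ℂ, ∃ n : ℕ, 0 < n ∧ f^[n] z = z ∧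
        (∃ U ∈ nhds z, ∀ w ∈ U,
          Filter.Tendsto (fun k : ℕ => f^[n * k] w) Filter.atTop (nhds z)) ∧
        Filter.Tendsto (fun k : ℕ => f^[n * k] c) Filter.atTop (nhds z)

/-- `z ^ 2 + c` is hyperbolic: the orbit of the critical point `0` tends to infinity or to an
attracting cycle. -/
def QuadHyperbolic (c : ℂ) : Prop :=
  Filter.Tendsto (fun k : ℕ => ‖(fun z : ℂ => z ^ 2 + c)^[k] 0‖) Filter.atTop Filter.atTop ∨
  ∃ (z : ℂ) (p : ℕ), 0 < p ∧ (fun z : ℂ => z ^ 2 + c)^[p] z = z ∧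
    ‖deriv (fun z : ℂ => z ^ 2 + c)^[p] z‖ < 1 ∧
    Filter.Tendsto (fun k : ℕ => (fun z : ℂ => z ^ 2 + c)^[p * k] 0) Filter.atTop (nhds z)

/-- `P' Q - P Q'`, the numerator of the derivative of `P / Q`. -/
noncomputable def wro (P Q : Polynomial ℂ) : Polynomial ℂ :=
  Polynomial.derivative P * Q - P * Polynomial.derivative Q

/-- The finite critical points `y` of `R = P / Q` with `1 / b ≤ |R(y)| ≤ 1 / a`. -/
def live (P Q : Polynomial ℂ) (a b : ℝ) : Set ℂ :=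
  {y | (wro P Q).eval y = 0 ∧ a * ‖P.eval y‖ ≤ ‖Q.eval y‖ ∧ ‖Q.eval y‖ ≤ b * ‖P.eval y‖}

/-- `2 / (|y| ^ 2 |R''(y)|)` for a critical point `y` of `R = P / Q`. -/
noncomputable def lam (P Q : Polynomial ℂ) (y : ℂ) : ℝ :=
  2 * ‖Q.eval y‖ ^ 2 / (‖y‖ ^ 2 * ‖(Polynomial.derivative (wro P Q)).eval y‖)

/-- Let `R = P / Q` be of degree `D ≥ 1` and `0 < a ≤ b` such that `|s R(0)| ≠ 1`, `|s R(∞)| ≠ 1`
for `a ≤ |s| ≤ b` and such that every critical point `y` of `R` with `1 / b ≤ |R(y)| ≤ 1 / a` is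
simple and has a modulus `|R(y)|` different from those of the other critical points; let `L` be the
set of these `y`. Let `A` be the area of the set of all `c` for which `z ^ 2 + c` is not hyperbolic.
Then for every `η > 0` and all large `n`: the set of `s`, `a ≤ |s| ≤ b`, for which `s R(z ^ n)` is
not hyperbolic has area at most `((∑ y ∈ L, lam y ^ 2) A + η) / n ^ 3`; and if every `c` is at
distance at most `τ` from a parameter of a hyperbolic quadratic polynomial and `lam ≤ K` on `L`,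
then every `s`, `a ≤ |s| ≤ b`, is at distance at most `(K τ + η) / n ^ 2` from some `s'` for which
`s' R(z ^ n)` is hyperbolic. Moreover `A ≤ 4 π`, and `τ = 1` is allowed. -/
theorem result : (∀ c : ℂ, ∃ c' : ℂ, ‖c' - c‖ ≤ 1 ∧ QuadHyperbolic c') ∧
    volume {c : ℂ | ¬ QuadHyperbolic c} ≤ ENNReal.ofReal (4 * Real.pi) ∧
    ∀ P Q : Polynomial ℂ, IsCoprime P Q → ∀ D : ℕ,
    D = max P.natDegree Q.natDegree → 1 ≤ D → ∀ a b : ℝ, 0 < a → a ≤ b →
    (∀ t : ℝ, a ≤ t → t ≤ b →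
      t * ‖P.coeff 0‖ ≠ ‖Q.coeff 0‖ ∧ t * ‖P.coeff D‖ ≠ ‖Q.coeff D‖) →
    (∀ y ∈ live P Q a b, (Polynomial.derivative (wro P Q)).eval y ≠ 0) →
    (∀ y ∈ live P Q a b, ∀ y' : ℂ, (wro P Q).eval y' = 0 →
      ‖P.eval y'‖ * ‖Q.eval y‖ = ‖P.eval y‖ * ‖Q.eval y'‖ → y' = y) →
    ∀ L : Finset ℂ, (∀ y : ℂ, y ∈ L ↔ y ∈ live P Q a b) → ∀ η : ℝ, 0 < η →
    (∃ n₀ : ℕ, ∀ n : ℕ, n₀ ≤ n →
      volume {s : ℂ | a ≤ ‖s‖ ∧ ‖s‖ ≤ b ∧
        ¬ Hyperbolic (Polynomial.C s * Polynomial.expand ℂ n P) (Polynomial.expand ℂ n Q)} ≤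
        ENNReal.ofReal ((∑ y ∈ L, lam P Q y ^ 2) / n ^ 3) * volume {c : ℂ | ¬ QuadHyperbolic c} +
          ENNReal.ofReal (η / n ^ 3)) ∧
    ∀ τ : ℝ, 0 ≤ τ → (∀ c : ℂ, ∃ c' : ℂ, ‖c' - c‖ ≤ τ ∧ QuadHyperbolic c') →
      ∀ K : ℝ, 0 ≤ K → (∀ y ∈ L, lam P Q y ≤ K) →
      ∃ n₀ : ℕ, ∀ n : ℕ, n₀ ≤ n → ∀ s : ℂ, a ≤ ‖s‖ → ‖s‖ ≤ b → ∃ s' : ℂ,
        ‖s' - s‖ ≤ (K * τ + η) / n ^ 2 ∧
        Hyperbolic (Polynomial.C s' * Polynomial.expand ℂ n P) (Polynomial.expand ℂ n Q) := by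
  refine ⟨Pool.Agent.K3h20.CR.near_one, Pool.Agent.K3h20.CR.QN_vol, ?_⟩
  intro P Q hc D hD hD1 a b ha hab h0 h1 h2 L hL η hη
  have hQN : {c : ℂ | ¬ QuadHyperbolic c} = Pool.Agent.K3h20.CR.QN := rfl
  refine ⟨?_, ?_⟩
  · obtain ⟨n₀, hn₀⟩ := Pool.Agent.K3h20.CR.main2 Pool.Agent.K3h20.CR.att_holds
      Pool.Agent.K3h77.CR.t_quad Pool.Agent.K3h20.CR.esc_holds Pool.Agent.K3h8.CR.t_tr2
      Pool.Agent.K3h64.CR.t_meas Pool.Agent.K3h22.CR.t_dyn2 hc hD hD1 ha hab h0 h1 h2 L hL hη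
    refine ⟨n₀, fun n hn => (hn₀ n hn).trans (le_of_eq ?_)⟩
    have hS : ∑ y ∈ L, lam P Q y ^ 2 = ∑ y ∈ L, 4 * ‖Q.eval y‖ ^ 4 /
        (‖y‖ ^ 4 * ‖(Polynomial.derivative (Pool.Agent.H762R2.Rt.wro P Q)).eval y‖ ^ 2) := by
      refine Finset.sum_congr rfl fun y _ => ?_
      change (2 * ‖Q.eval y‖ ^ 2 / (‖y‖ ^ 2 *
        ‖(Polynomial.derivative (Pool.Agent.H762R2.Rt.wro P Q)).eval y‖)) ^ 2 = _
      rw [div_pow]
      congr 1 <;> ring
    have hS0 : 0 ≤ ∑ y ∈ L, lam P Q y ^ 2 := Finset.sum_nonneg fun y _ => sq_nonneg _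
    rw [hS] at hS0 ⊢
    rw [hQN]
    have hA : volume Pool.Agent.K3h20.CR.QN =
        ENNReal.ofReal (volume Pool.Agent.K3h20.CR.QN).toReal :=
      (ENNReal.ofReal_toReal Pool.Agent.K3h20.CR.QN_ne_top).symm
    conv_rhs => rw [hA]
    rw [← ENNReal.ofReal_mul (by positivity), ← ENNReal.ofReal_add
      (mul_nonneg (by positivity) ENNReal.toReal_nonneg) (by positivity)]
    congr 1
    ring
  · intro τ hτ hdense K hK0 hK
    refine Pool.Agent.K3h20.CR.main3 hc hD hD1 ha hab h0 h1 h2 hK0 ?_ hτ ?_ hη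
    · intro y hy
      have h3 := hK y ((hL y).2 hy)
      have hw : 0 < ‖(Polynomial.derivative (wro P Q)).eval y‖ := norm_pos_iff.2 (h1 y hy)
      have hy0 : y ≠ 0 := by
        rintro rfl
        obtain ⟨hP, hQ⟩ := Pool.Agent.K3h20.CR.live_ne hc ha hy
        obtain ⟨-, h4, h5⟩ := hy
        have hP' : 0 < ‖P.eval 0‖ := norm_pos_iff.2 hP
        have h6 := (h0 (‖Q.eval 0‖ / ‖P.eval 0‖) (by rw [le_div_iff₀ hP']; exact h4)
          (by rw [div_le_iff₀ hP']; exact h5)).1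
        rw [Polynomial.coeff_zero_eq_eval_zero, Polynomial.coeff_zero_eq_eval_zero] at h6
        exact h6 (by field_simp)
      have hyn : 0 < ‖y‖ := norm_pos_iff.2 hy0
      unfold lam at h3
      rw [div_le_iff₀ (by positivity)] at h3
      exact h3
    · intro c
      obtain ⟨c', h3, h4⟩ := hdense c
      exact ⟨c', h4, h3⟩

end Pool.Agent.Results.MP_8f2e1c_an.MandelbrotFamilies
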