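import Mathlib
import Pool.Agent.K3h78.RS.A11

/-!
# Rational maps with a rotational symmetry of large order

The rational maps `f` with `f (ω z) = ω ^ k f (z)` for the roots of unity `ω` of order `n` are the
maps `z ^ a A (z ^ n) / (z ^ b B (z ^ n))` with `a - b` congruent to `k` modulo `n`.
-/

set_option autoImplicit false

open Polynomial Filter Topology MeasureTheory

namespace Pool.Agent.Results.MP_8f2e1c_an.RotationalSymmetry

/-- `P / Q` is in lowest terms and every critical point (point of the Riemann sphere where the map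
is not locally injective) has an orbit converging to an attracting periodic cycle. This is word
for word the condition of the frozen statement `S05373`. -/
def Hyperbolic (P Q : Polynomial ℂ) : Prop :=
  IsCoprime P Q ∧ ∃ f : OnePoint ℂ → OnePoint ℂ, Continuous f ∧
    (∀ z : ℂ, Q.eval z ≠ 0 →
      f (OnePoint.some z) = OnePoint.some (P.eval z / Q.eval z)) ∧
    ∀ c : OnePoint ℂ, (¬ ∃ U ∈ nhds c, Set.InjOn f U) →
      ∃ z : OnePoint ℂ, ∃ n : ℕ, 0 < n ∧ f^[n] z = z ∧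
        (∃ U ∈ nhds z, ∀ w ∈ U,
          Filter.Tendsto (fun k : ℕ => f^[n * k] w) Filter.atTop (nhds z)) ∧
        Filter.Tendsto (fun k : ℕ => f^[n * k] c) Filter.atTop (nhds z)

/-- `A` and `B` are coprime of degree at most `D`, their coefficients have modulus at most `M`, and
their constant and leading coefficients have modulus at least `1 / M`. -/
structure Normalised (D : ℕ) (M : ℝ) (A B : ℂ[X]) : Prop where
  coprime : IsCoprime A B
  degree : A.natDegree ≤ D ∧ B.natDegree ≤ D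
  upper : ∀ k, ‖A.coeff k‖ ≤ M ∧ ‖B.coeff k‖ ≤ M
  lower : M⁻¹ ≤ ‖A.coeff 0‖ ∧ M⁻¹ ≤ ‖B.coeff 0‖ ∧ M⁻¹ ≤ ‖A.leadingCoeff‖ ∧ M⁻¹ ≤ ‖B.leadingCoeff‖

/-- The polynomial `z ^ a A (z ^ n)`. -/
noncomputable def twist (a n : ℕ) (A : ℂ[X]) : ℂ[X] := X ^ a * expand ℂ n A

/-- The exponent at `0` of `z ^ a A (z ^ n) / (z ^ b B (z ^ n))` (for `A 0`, `B 0` nonzero). -/
def expZero (a b : ℕ) : ℝ := (a : ℝ) - b

/-- The exponent at infinity of `z ^ a A (z ^ n) / (z ^ b B (z ^ n))`. -/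
noncomputable def expInfty (a b n : ℕ) (A B : ℂ[X]) : ℝ :=
  ((a : ℝ) + n * A.natDegree) - (b + n * B.natDegree)

/-- `f (ω z) = ω ^ k f (z)` for `f = P / Q` and for all `ω` with `ω ^ n = 1`. -/
def Symmetric (n : ℕ) (k : ℤ) (P Q : ℂ[X]) : Prop :=
  ∀ ω : ℂ, ω ^ n = 1 → ∀ z : ℂ, P.eval (ω * z) * Q.eval z = ω ^ k * (P.eval z * Q.eval (ω * z))

theorem twist_one (b n : ℕ) (B : ℂ[X]) : K3h78.RS.PP 1 b n B = twist b n B := by
  unfold K3h78.RS.PP twist; rw [C_1, one_mul]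

theorem twist_mul (s : ℂ) (a n : ℕ) (A : ℂ[X]) : K3h78.RS.PP s a n A = C s * twist a n A := by
  unfold K3h78.RS.PP twist; rw [mul_assoc]

theorem nrm {D : ℕ} {M : ℝ} {A B : ℂ[X]} (h : Normalised D M A B) : K3h78.RS.Nrm D M A B :=
  ⟨h.coprime, h.degree.1, h.degree.2, fun k => (h.upper k).1, fun k => (h.upper k).2, h.lower.1,
    h.lower.2.1, h.lower.2.2.1, h.lower.2.2.2⟩

theorem hyp_iff (P Q : ℂ[X]) : Pool.Agent.H762R2.Rt.Hyp P Q ↔ Hyperbolic P Q := Iff.rfl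

/-- Let `f = z ^ a A (z ^ n) / (z ^ b B (z ^ n))` with `a = 0` or `b = 0`, with `A`, `B` normalised
and with exponents at `0` and at infinity of modulus at least two and at most `κ n`.

(1) If the two exponents have modulus at least three, or one of them has modulus two and the other
at least seven, then `e ^ t f` is hyperbolic for all `|t| ≤ H` outside a set of length at most
`C (log n) ^ 2 / n`, and for some `0 ≤ t ≤ C (log n) ^ 2 / n`.

(2) In all cases the length of the exceptional set is at most `τ` for `n` large.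

(3) At the scale `ε`, hyperbolic maps are dense near the symmetric maps: let `i, j < n`, one of them
zero, `i - j` not congruent to `1` or `-1` modulo `n`, and let `P`, `Q` have degree at most
`D ≤ K n`, `D` congruent to `i` or `j`, and coefficients of modulus at most `M`, those of `P` at
indices not congruent to `i` and those of `Q` at indices not congruent to `j` of modulus less than
`ε`. Then there is a hyperbolic map of degree `D` with coefficients at distance less than `ε` from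
those of `P`, `Q`.

(4) In particular every rational map with `f (ω z) = ω ^ k f (z)` for `ω ^ n = 1`, `k` not congruent
to `1` or `-1` modulo `n`, of degree at most `K n` and with coefficients at most `M`, is at distance
less than `ε` from a hyperbolic map of the same degree with the same symmetry, if `n` is large. -/
theorem result :
    (∀ (D : ℕ) (M κ H : ℝ), 0 < M → 0 ≤ κ → ∃ C : ℝ, 0 < C ∧ ∃ n₀ : ℕ, ∀ n : ℕ, n₀ ≤ n →
      ∀ (a b : ℕ) (A B : ℂ[X]), Normalised D M A B → (a = 0 ∨ b = 0) →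
        ((3 ≤ |expZero a b| ∧ 3 ≤ |expInfty a b n A B|) ∨
          (|expZero a b| = 2 ∧ 7 ≤ |expInfty a b n A B|) ∨
          (7 ≤ |expZero a b| ∧ |expInfty a b n A B| = 2)) →
        |expZero a b| ≤ κ * n → |expInfty a b n A B| ≤ κ * n →
        volume {t : ℝ | |t| ≤ H ∧
            ¬ Hyperbolic (Polynomial.C (Real.exp t : ℂ) * twist a n A) (twist b n B)} ≤
          ENNReal.ofReal (C * (Real.log n ^ 2 / n)) ∧
        ∃ t : ℝ, 0 ≤ t ∧ t ≤ C * (Real.log n ^ 2 / n) ∧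
          Hyperbolic (Polynomial.C (Real.exp t : ℂ) * twist a n A) (twist b n B)) ∧
    (∀ (D : ℕ) (M κ H τ : ℝ), 0 < M → 0 ≤ κ → 0 ≤ H → 0 < τ → ∃ n₀ : ℕ, ∀ n : ℕ, n₀ ≤ n →
      ∀ (a b : ℕ) (A B : ℂ[X]), Normalised D M A B → (a = 0 ∨ b = 0) →
        2 ≤ |expZero a b| → 2 ≤ |expInfty a b n A B| →
        |expZero a b| ≤ κ * n → |expInfty a b n A B| ≤ κ * n →
        volume {t : ℝ | |t| ≤ H ∧
            ¬ Hyperbolic (Polynomial.C (Real.exp t : ℂ) * twist a n A) (twist b n B)} ≤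
          ENNReal.ofReal τ) ∧
    (∀ (K : ℕ) (M ε : ℝ), 0 < ε → ∃ n₀ : ℕ, ∀ n : ℕ, n₀ ≤ n →
      ∀ i j D : ℕ, i < n → j < n → (i = 0 ∨ j = 0) →
        ¬ (n : ℤ) ∣ (i : ℤ) - j - 1 → ¬ (n : ℤ) ∣ (i : ℤ) - j + 1 →
        1 ≤ D → D ≤ K * n → (D % n = i ∨ D % n = j) →
        ∀ P Q : ℂ[X], P.natDegree ≤ D → Q.natDegree ≤ D →
          (∀ m, ‖P.coeff m‖ ≤ M) → (∀ m, ‖Q.coeff m‖ ≤ M) →
          (∀ m, m % n ≠ i → ‖P.coeff m‖ < ε) → (∀ m, m % n ≠ j → ‖Q.coeff m‖ < ε) →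
          ∃ P' Q' : ℂ[X], max P'.natDegree Q'.natDegree = D ∧
            (∀ m, ‖P'.coeff m - P.coeff m‖ < ε) ∧ (∀ m, ‖Q'.coeff m - Q.coeff m‖ < ε) ∧
            Hyperbolic P' Q') ∧
    (∀ (K : ℕ) (M ε : ℝ), 0 < ε → ∃ n₀ : ℕ, ∀ n : ℕ, n₀ ≤ n →
      ∀ k : ℤ, ¬ (n : ℤ) ∣ k - 1 → ¬ (n : ℤ) ∣ k + 1 →
        ∀ P Q : ℂ[X], IsCoprime P Q →
          1 ≤ max P.natDegree Q.natDegree → max P.natDegree Q.natDegree ≤ K * n →
          (∀ m, ‖P.coeff m‖ ≤ M) → (∀ m, ‖Q.coeff m‖ ≤ M) → Symmetric n k P Q →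
          ∃ P' Q' : ℂ[X], Symmetric n k P' Q' ∧
            max P'.natDegree Q'.natDegree = max P.natDegree Q.natDegree ∧
            (∀ m, ‖P'.coeff m - P.coeff m‖ < ε) ∧ (∀ m, ‖Q'.coeff m - Q.coeff m‖ < ε) ∧
            Hyperbolic P' Q') := by
  refine ⟨?_, ?_, ?_, ?_⟩
  · intro D M κ H hM hκ
    obtain ⟨C₁, hC₁, n₁, h₁⟩ := K3h78.RS.measure_bound D (H := H) hM hκ
    obtain ⟨C₂, hC₂, n₂, h₂⟩ := K3h78.RS.coarse_mult D hM hκ
    refine ⟨max C₁ C₂, lt_max_of_lt_left hC₁, max n₁ n₂, ?_⟩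
    intro n hn a b A B hN hab hadm hκ0 hκ1
    have hr : 0 ≤ Real.log n ^ 2 / n := by positivity
    have m₁ := h₁ n (le_of_max_le_left hn) a b A B (nrm hN) hab hadm hκ0 hκ1
    obtain ⟨t, ht0, ht1, ht2⟩ := h₂ n (le_of_max_le_right hn) a b A B (nrm hN) hab hadm hκ0 hκ1
    simp only [twist_one] at m₁ ht2
    simp only [twist_mul, hyp_iff] at m₁ ht2
    refine ⟨m₁.trans (ENNReal.ofReal_le_ofReal ?_), t, ht0, ht1.trans ?_, ht2⟩
    · exact mul_le_mul_of_nonneg_right (le_max_left _ _) hr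
    · exact mul_le_mul_of_nonneg_right (le_max_right _ _) hr
  · intro D M κ H τ hM hκ hH hτ
    obtain ⟨n₀, h⟩ := K3h78.RS.measure_all D hM hκ hH hτ
    refine ⟨n₀, ?_⟩
    intro n hn a b A B hN hab h0 h1 hκ0 hκ1
    have m₁ := h n hn a b A B (nrm hN) hab h0 h1 hκ0 hκ1
    simp only [twist_one] at m₁
    simp only [twist_mul, hyp_iff] at m₁
    exact m₁
  · intro K M ε hε
    obtain ⟨n₀, h⟩ := K3h78.RS.near_all K (M := M) hε
    refine ⟨n₀, ?_⟩
    intro n hn i j D hi hj hij h1 h2 hD1 hDK hD P Q hdP hdQ hP hQ hoffP hoffQ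
    obtain ⟨P', Q', g1, g2, g3, -, -, g4⟩ := h n hn i j D hi hj hij ⟨h1, h2⟩ hD1 hDK hD P Q hdP hdQ
      hP hQ hoffP hoffQ
    exact ⟨P', Q', g1, g2, g3, g4⟩
  · intro K M ε hε
    obtain ⟨n₀, h⟩ := K3h78.RS.sym_all K (M := M) hε
    exact ⟨n₀, fun n hn k hk1 hk2 P Q hc hD hDK hP hQ hs => h n hn k hk1 hk2 P Q hc hD hDK hP hQ hs⟩

end Pool.Agent.Results.MP_8f2e1c_an.RotationalSymmetry
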